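import Pool.Agent.Helper41.Pointed

/-!
# Strongly positive bases of rank 2 quantum cluster algebras are pointed

For all `b, c ≥ 1`, every `ℤ[v, v⁻¹]`-basis `B` of the quantum cluster algebra `𝒜_v(b,c)` which
consists of bar-invariant elements, contains all quantum cluster monomials and has structure
constants in `ℤ_{≥0}[v, v⁻¹]` contains exactly one element pointed at each `(a₁, a₂) ∈ ℤ²`.
-/

set_option autoImplicit false

open LaurentPolynomial
open Pool.Agent.Helper41
open Pool.Agent.Helper41.QTorus (mono bar coeff)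

namespace Pool.Agent.Results.MP_573297_al.ExactlyOnePointed

/-- The quantum cluster monomial `X_m^(u,w) = v^(uw) X_m^u X_{m+1}^w` (`u, w ≥ 0`). -/
noncomputable def clusterMonomial (b c : ℕ+) (m : ℤ) (u w : ℕ) : QTorus :=
  (T ((u : ℤ) * w) : Lv) • (clusterVar b c m ^ u * clusterVar b c (m + 1) ^ w)

/-- Finite linear combinations of elements of `B` with coefficients in `ℤ_{≥0}[v, v⁻¹]`. -/
def nonnegCombinations (B : Set QTorus) : Set QTorus :=
  {z | ∃ f : B →₀ Lv, (∀ y n, 0 ≤ (f y).coeff n) ∧ z = f.sum fun y r => r • (y : QTorus)}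

/-- `B` is a `ℤ[v, v⁻¹]`-basis of the quantum cluster algebra `𝒜_v(b,c)` which satisfies conditions
(1), (3) and (4) in the definition of a strongly positive basis (condition (2), independence of the
initial cluster, is not required). -/
structure IsPositiveBasis (b c : ℕ+) (B : Set QTorus) : Prop where
  /-- `B` is linearly independent over `ℤ[v, v⁻¹]`. -/
  linearIndependent : LinearIndependent Lv (fun x : B => (x : QTorus))
  /-- `B` spans `𝒜_v(b,c)` over `ℤ[v, v⁻¹]`. -/
  span_eq : Submodule.span Lv B = Subalgebra.toSubmodule (clusterAlgebra b c)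
  /-- (1) every element of `B` is bar-invariant. -/
  bar_eq : ∀ x ∈ B, bar x = x
  /-- (3) `B` contains every quantum cluster monomial. -/
  clusterMonomial_mem : ∀ (m : ℤ) (u w : ℕ), clusterMonomial b c m u w ∈ B
  /-- (4) products of elements of `B` are nonnegative combinations of elements of `B`. -/
  mul_mem : ∀ x ∈ B, ∀ y ∈ B, x * y ∈ nonnegCombinations B

/-- `x` is pointed at `(a₁, a₂)`: `x = ∑_{p,q ≥ 0} e(p,q) X^(bp - a₁, cq - a₂)` (a finite sum) with
`e(p,q) ∈ ℤ[v, v⁻¹]` and `e(0,0) = 1`. -/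
def IsPointedAt (b c : ℕ+) (x : QTorus) (a : ℤ × ℤ) : Prop :=
  ∃ e : (ℕ × ℕ) →₀ Lv, e (0, 0) = 1 ∧
    x = e.sum fun p r => r • mono ((b : ℤ) * p.1 - a.1, (c : ℤ) * p.2 - a.2)

section nonneg

variable {B : Set QTorus}

theorem nc_of_mem {x : QTorus} (hx : x ∈ B) : x ∈ nonnegCombinations B := by
  refine ⟨Finsupp.single ⟨x, hx⟩ 1, ?_, ?_⟩
  · intro y n
    classical
    rw [Finsupp.single_apply]
    split_ifs
    · exact NN.T 0 n
    · exact le_rfl
  · rw [Finsupp.sum_single_index] <;> simp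

theorem nc_zero : (0 : QTorus) ∈ nonnegCombinations B :=
  ⟨0, fun _ _ => le_rfl, by simp⟩

theorem nc_add {x y : QTorus} (hx : x ∈ nonnegCombinations B) (hy : y ∈ nonnegCombinations B) :
    x + y ∈ nonnegCombinations B := by
  obtain ⟨f, hf, rfl⟩ := hx
  obtain ⟨g, hg, rfl⟩ := hy
  refine ⟨f + g, fun y => NN.add (hf y) (hg y), ?_⟩
  rw [Finsupp.sum_add_index'] <;> simp [add_smul]

theorem nc_smul {r : Lv} (hr : NN r) {x : QTorus} (hx : x ∈ nonnegCombinations B) :
    r • x ∈ nonnegCombinations B := by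
  obtain ⟨f, hf, rfl⟩ := hx
  refine ⟨r • f, fun y => NN.mul hr (hf y), ?_⟩
  rw [Finsupp.sum_smul_index (by simp), Finsupp.smul_sum]
  simp [smul_smul]

theorem nc_sum {ι : Type*} {s : Finset ι} {f : ι → QTorus}
    (h : ∀ i ∈ s, f i ∈ nonnegCombinations B) : ∑ i ∈ s, f i ∈ nonnegCombinations B := by
  classical
  induction s using Finset.induction_on with
  | empty => simpa using nc_zero
  | insert a s ha ih =>
    rw [Finset.sum_insert ha]
    exact nc_add (h a (by simp)) (ih fun i hi => h i (by simp [hi]))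

theorem nc_mul (hB : ∀ x ∈ B, ∀ y ∈ B, x * y ∈ nonnegCombinations B) {x y : QTorus}
    (hx : x ∈ nonnegCombinations B) (hy : y ∈ nonnegCombinations B) :
    x * y ∈ nonnegCombinations B := by
  obtain ⟨f, hf, rfl⟩ := hx
  obtain ⟨g, hg, rfl⟩ := hy
  rw [Finsupp.sum, Finsupp.sum, Finset.sum_mul_sum]
  refine nc_sum fun i _ => nc_sum fun j _ => ?_
  rw [smul_mul_assoc, mul_smul_comm]
  exact nc_smul (hf i) (nc_smul (hg j) (hB _ i.2 _ j.2))

theorem nc_pow (hB : ∀ x ∈ B, ∀ y ∈ B, x * y ∈ nonnegCombinations B)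
    (h1 : (1 : QTorus) ∈ B) {x : QTorus} (hx : x ∈ nonnegCombinations B) (n : ℕ) :
    x ^ n ∈ nonnegCombinations B := by
  induction n with
  | zero => simpa using nc_of_mem h1
  | succ n ih => rw [pow_succ]; exact nc_mul hB ih hx

end nonneg

section main

variable {b c : ℕ+} {B : Set QTorus}

theorem clusterMonomial_one (b c : ℕ+) (u w : ℕ) :
    clusterMonomial b c 1 u w = mono ((u : ℤ), (w : ℤ)) := by
  have h := clusterVar_props b c
  rw [clusterMonomial, h.2.1, show (1 : ℤ) + 1 = 2 from rfl, h.2.2.1, mono_pow, mono_pow,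
    Helper41.mono_mul_mono, smul_smul, ← T_add]
  simp [twist]

theorem one_mem (hB : IsPositiveBasis b c B) : (1 : QTorus) ∈ B := by
  have := hB.clusterMonomial_mem 1 0 0
  rwa [clusterMonomial_one] at this

theorem var_mem (hB : IsPositiveBasis b c B) (m : ℤ) : clusterVar b c m ∈ B := by
  have := hB.clusterMonomial_mem m 1 0
  simpa [clusterMonomial] using this

theorem zed_mem_nc (hB : IsPositiveBasis b c B) (a : ℤ × ℤ) : zed b c a ∈ nonnegCombinations B := by
  have h := clusterVar_props b c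
  have h0 := nc_of_mem (var_mem hB 0)
  have h1 := nc_of_mem (var_mem hB 1)
  have h2 := nc_of_mem (var_mem hB 2)
  have h3 := nc_of_mem (var_mem hB 3)
  rw [h.1] at h0
  rw [h.2.1] at h1
  rw [h.2.2.1] at h2
  rw [h.2.2.2.1] at h3
  have hp := fun {x : QTorus} (hx : x ∈ nonnegCombinations B) (n : ℕ) =>
    nc_pow hB.mul_mem (one_mem hB) hx n
  exact nc_mul hB.mul_mem (nc_mul hB.mul_mem (nc_mul hB.mul_mem (hp h0 _) (hp h1 _)) (hp h2 _)) (hp h3 _)

/-- Elements of a positive basis are Laurent polynomials with nonnegative coefficients. -/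
theorem posElt_of_mem (hB : IsPositiveBasis b c B) {x : QTorus} (hx : x ∈ B) : PosElt x := by
  classical
  -- choose `N` such that the support of `x` shifted by `(N, N)` lies in `ℕ²`
  obtain ⟨N, hN⟩ : ∃ N : ℕ, ∀ a ∈ QTorus.supp x, 0 ≤ a.1 + N ∧ 0 ≤ a.2 + N := by
    refine ⟨∑ a ∈ QTorus.supp x, (a.1.natAbs + a.2.natAbs), ?_⟩
    intro a ha
    have h1 : a.1.natAbs + a.2.natAbs ≤ ∑ a ∈ QTorus.supp x, (a.1.natAbs + a.2.natAbs) :=
      Finset.single_le_sum (f := fun a : ℤ × ℤ => a.1.natAbs + a.2.natAbs) (fun _ _ => Nat.zero_le _) ha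
    omega
  have hmem : ∀ a ∈ QTorus.supp x, mono (a + ((N : ℤ), (N : ℤ))) ∈ B := by
    intro a ha
    have h1 := hN a ha
    have h2 := hB.clusterMonomial_mem 1 (a.1 + N).toNat (a.2 + N).toNat
    rw [clusterMonomial_one] at h2
    have e : (((a.1 + N).toNat : ℤ), ((a.2 + N).toNat : ℤ)) = a + ((N : ℤ), (N : ℤ)) := by
      ext <;> simp [h1.1, h1.2]
    rwa [e] at h2
  have hm : mono ((N : ℤ), (N : ℤ)) ∈ B := by
    have h2 := hB.clusterMonomial_mem 1 N N
    rwa [clusterMonomial_one] at h2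
  obtain ⟨f, hf, hfs⟩ := hB.mul_mem x hx _ hm
  let g : B →₀ Lv := ∑ a ∈ (QTorus.supp x).attach,
    Finsupp.single ⟨mono (a.1 + ((N : ℤ), (N : ℤ))), hmem a.1 a.2⟩
      (coeff x a.1 * T (twist a.1 ((N : ℤ), (N : ℤ))))
  have hg : Finsupp.linearCombination Lv (fun x : B => (x : QTorus)) g =
      x * mono ((N : ℤ), (N : ℤ)) := by
    simp only [g, map_sum, Finsupp.linearCombination_single]
    conv_rhs => rw [QTorus.eq_sum_term x, Finset.sum_mul, ← Finset.sum_attach]
    refine Finset.sum_congr rfl fun a _ => ?_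
    rw [QTorus.mono, QTorus.mono, QTorus.term_mul_term, QTorus.smul_term]
    simp
  have hfg : f = g := by
    apply hB.linearIndependent
    rw [hg, hfs, Finsupp.linearCombination_apply]
  intro a
  by_cases ha : a ∈ QTorus.supp x
  · have h1 := hf ⟨mono (a + ((N : ℤ), (N : ℤ))), hmem a ha⟩
    have h2 : f ⟨mono (a + ((N : ℤ), (N : ℤ))), hmem a ha⟩ =
        coeff x a * T (twist a ((N : ℤ), (N : ℤ))) := by
      rw [hfg]
      simp only [g, Finsupp.finsetSum_apply]
      rw [Finset.sum_eq_single (⟨a, ha⟩ : {a // a ∈ QTorus.supp x})]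
      · simp
      · intro a' _ hne
        rw [Finsupp.single_apply, if_neg]
        intro h3
        apply hne
        have h4 : mono (a'.1 + ((N : ℤ), (N : ℤ))) = mono (a + ((N : ℤ), (N : ℤ))) :=
          congrArg Subtype.val h3
        have h5 := congrArg (fun z => coeff z (a + ((N : ℤ), (N : ℤ)))) h4
        simp only [QTorus.mono, QTorus.coeff_term] at h5
        split_ifs at h5 with h6
        · exact Subtype.ext (add_right_cancel h6)
        · simp at h5
      · intro h3
        exact absurd (Finset.mem_attach _ _) h3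
    have h3 : NN (coeff x a * T (twist a ((N : ℤ), (N : ℤ)))) := by rw [← h2]; exact h1
    have h4 := h3.mul (NN.T (-(twist a ((N : ℤ), (N : ℤ)))))
    rwa [mul_assoc, ← T_add, add_neg_cancel, T_zero, mul_one] at h4
  · have : coeff x a = 0 := by
      by_contra h
      exact ha (QTorus.mem_supp.2 h)
    rw [this]
    exact NN.zero

theorem coeff_finsuppSum (f : B →₀ Lv) (a : ℤ × ℤ) :
    coeff (f.sum fun y r => r • (y : QTorus)) a = ∑ y ∈ f.support, f y * coeff (y : QTorus) a := by
  rw [Finsupp.sum, QTorus.coeff_sum]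
  rfl

theorem eq_zero_of_sum_eq_zero {ι : Type*} {s : Finset ι} {f : ι → Lv} (hf : ∀ i ∈ s, NN (f i))
    (h : ∑ i ∈ s, f i = 0) : ∀ i ∈ s, f i = 0 := by
  intro i hi
  ext n
  have h1 : ∑ i ∈ s, (f i).coeff n = 0 := by
    rw [← coeff_Lv_sum, h]; rfl
  exact (Finset.sum_eq_zero_iff_of_nonneg fun j hj => hf j hj n).1 h1 i hi

/-- In a nonnegative expansion of `z`, every basis element that occurs has its support inside the
support of `z`. -/
theorem coeff_eq_zero_of_nc (hB : IsPositiveBasis b c B) {f : B →₀ Lv}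
    (hf : ∀ y n, 0 ≤ (f y).coeff n) {a : ℤ × ℤ}
    (ha : coeff (f.sum fun y r => r • (y : QTorus)) a = 0) {y : B} (hy : f y ≠ 0) :
    coeff (y : QTorus) a = 0 := by
  rw [coeff_finsuppSum] at ha
  have h := eq_zero_of_sum_eq_zero (s := f.support) (f := fun y => f y * coeff (y : QTorus) a)
    (fun i _ => NN.mul (hf i) (posElt_of_mem hB i.2 a)) ha y (Finsupp.mem_support_iff.2 hy)
  exact (mul_eq_zero.1 h).resolve_left hy

/-- Low without the top term. -/
def SLow (b c : ℕ+) (a : ℤ × ℤ) (x : QTorus) : Prop := Low b c a x ∧ coeff x (-a) = 0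

theorem Low.of_nc (hB : IsPositiveBasis b c B) {f : B →₀ Lv}
    (hf : ∀ y n, 0 ≤ (f y).coeff n) {a : ℤ × ℤ}
    (ha : Low b c a (f.sum fun y r => r • (y : QTorus))) {y : B} (hy : f y ≠ 0) :
    Low b c a (y : QTorus) := by
  intro s hs
  refine ha s fun h => hs ?_
  exact coeff_eq_zero_of_nc hB hf h hy

theorem SLow.of_nc (hB : IsPositiveBasis b c B) {f : B →₀ Lv}
    (hf : ∀ y n, 0 ≤ (f y).coeff n) {a : ℤ × ℤ}
    (ha : SLow b c a (f.sum fun y r => r • (y : QTorus))) {y : B} (hy : f y ≠ 0) :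
    SLow b c a (y : QTorus) :=
  ⟨Low.of_nc hB hf ha.1 hy, coeff_eq_zero_of_nc hB hf ha.2 hy⟩

/-- Existence. -/
theorem exists_pointed (hB : IsPositiveBasis b c B) (a : ℤ × ℤ) :
    ∃ x ∈ B, Low b c a x ∧ coeff x (-a) = 1 := by
  obtain ⟨f, hf, hfs⟩ := zed_mem_nc hB a
  obtain ⟨hlow, n, hn⟩ := ptU_zed b c a
  rw [hfs] at hlow hn
  have hn' := hn
  rw [coeff_finsuppSum] at hn'
  obtain ⟨y, hy, hy0⟩ : ∃ y ∈ f.support, f y * coeff (y : QTorus) (-a) ≠ 0 := by
    apply Finset.exists_ne_zero_of_sum_ne_zero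
    rw [hn']
    exact QTorus.T_ne_zero n
  have hy1 : f y ≠ 0 := Finsupp.mem_support_iff.1 hy
  have hnn : ∀ i ∈ f.support, NN (f i * coeff (i : QTorus) (-a)) :=
    fun i _ => NN.mul (hf i) (posElt_of_mem hB i.2 _)
  have hle : ∀ k, (f y * coeff (y : QTorus) (-a)).coeff k ≤ (T n : Lv).coeff k := by
    intro k
    rw [← hn', coeff_Lv_sum]
    exact Finset.single_le_sum (f := fun i : B => (f i * coeff (i : QTorus) (-a)).coeff k)
      (fun i hi => hnn i hi k) hy
  have heq : f y * coeff (y : QTorus) (-a) = T n := by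
    obtain ⟨k, hk⟩ := NN.exists_pos (hnn y hy) hy0
    ext j
    have h1 := hle k
    rw [T_apply] at h1
    split_ifs at h1 with h2
    · subst h2
      rw [T_apply]
      split_ifs with h3
      · subst h3; omega
      · have h4 := hle j
        have h5 := hnn y hy j
        rw [T_apply, if_neg h3] at h4
        omega
    · omega
  obtain ⟨k, hk⟩ := NN.eq_T_of_mul_eq_T (hf y) (posElt_of_mem hB y.2 _) heq
  have hbar := hB.bar_eq y y.2
  have h1 := congrArg (fun z => coeff z (-a)) hbar
  simp only [QTorus.coeff_bar, hk, invert_T] at h1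
  have h2 := T_injective h1
  have h3 : k = 0 := by omega
  exact ⟨y, y.2, Low.of_nc hB hf hlow hy1, by rw [hk, h3, T_zero]⟩

/-- The dominance order attached to the initial cluster. -/
def Le (b c : ℕ+) (a a' : ℤ × ℤ) : Prop :=
  ∃ p q : ℕ, a'.1 - a.1 = (b : ℤ) * p ∧ a'.2 - a.2 = (c : ℤ) * q

theorem Le.refl (a : ℤ × ℤ) : Le b c a a := ⟨0, 0, by simp, by simp⟩

theorem Le.trans {a a' a'' : ℤ × ℤ} (h : Le b c a a') (h' : Le b c a' a'') : Le b c a a'' := by
  obtain ⟨p, q, h1, h2⟩ := h
  obtain ⟨p', q', h3, h4⟩ := h'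
  refine ⟨p + p', q + q', ?_, ?_⟩
  · push_cast; linarith
  · push_cast; linarith

theorem Le.sum_le {a a' : ℤ × ℤ} (h : Le b c a a') : a.1 + a.2 ≤ a'.1 + a'.2 := by
  obtain ⟨p, q, h1, h2⟩ := h
  have h3 : (0 : ℤ) ≤ b * p := by positivity
  have h4 : (0 : ℤ) ≤ c * q := by positivity
  linarith

theorem Le.eq_of_sum {a a' : ℤ × ℤ} (h : Le b c a a') (hs : a'.1 + a'.2 ≤ a.1 + a.2) : a = a' := by
  obtain ⟨p, q, h1, h2⟩ := h
  have h3 : (0 : ℤ) ≤ b * p := by positivity
  have h4 : (0 : ℤ) ≤ c * q := by positivity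
  ext <;> linarith

theorem Low.mono_le {a a' : ℤ × ℤ} (h : Le b c a a') {x : QTorus} (hx : Low b c a x) :
    Low b c a' x := by
  obtain ⟨p, q, h1, h2⟩ := h
  intro s hs
  obtain ⟨p', q', h3⟩ := hx s hs
  refine ⟨p + p', q + q', ?_⟩
  rw [h3]
  ext
  · simp only; push_cast; linarith
  · simp only; push_cast; linarith

theorem le_of_low {a a' : ℤ × ℤ} {x : QTorus} (hx : Low b c a x) (h : coeff x (-a') ≠ 0) :
    Le b c a' a := by
  obtain ⟨p, q, h1⟩ := hx _ h
  refine ⟨p, q, ?_, ?_⟩
  · have := congrArg Prod.fst h1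
    simp only [Prod.fst_neg] at this
    linarith
  · have := congrArg Prod.snd h1
    simp only [Prod.snd_neg] at this
    linarith

/-- Triangularity: an element of the cluster algebra whose support is strictly below `a` is a linear
combination of standard monomials strictly below `a`. -/
theorem le_of_expansion {F : (ℤ × ℤ) →₀ Lv} {a : ℤ × ℤ}
    (h : SLow b c a (F.sum fun a' r => r • zed b c a')) {a' : ℤ × ℤ} (ha' : F a' ≠ 0) :
    Le b c a' a ∧ a' ≠ a := by
  classical
  -- choose a maximal exponent above `a'`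
  let S : Finset (ℤ × ℤ) := F.support.filter fun t => Le b c a' t
  have hS : S.Nonempty := ⟨a', Finset.mem_filter.2 ⟨Finsupp.mem_support_iff.2 ha', Le.refl a'⟩⟩
  obtain ⟨t, htS, htmax⟩ := S.exists_max_image (fun t => t.1 + t.2) hS
  have ht := Finset.mem_filter.1 htS
  have hmax : ∀ t' ∈ F.support, Le b c t t' → t' = t := by
    intro t' ht' hle
    have h1 : t' ∈ S := Finset.mem_filter.2 ⟨ht', ht.2.trans hle⟩
    exact (Le.eq_of_sum hle (htmax t' h1)).symm
  have hcoeff : coeff (F.sum fun a' r => r • zed b c a') (-t) ≠ 0 := by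
    rw [Finsupp.sum, QTorus.coeff_sum, Finset.sum_eq_single_of_mem t ht.1]
    · obtain ⟨n, hn⟩ := (ptU_zed b c t).2
      rw [QTorus.coeff_smul, hn]
      exact mul_ne_zero (Finsupp.mem_support_iff.1 ht.1) (QTorus.T_ne_zero n)
    · intro t' ht' hne
      rw [QTorus.coeff_smul]
      by_contra h1
      have h2 : coeff (zed b c t') (-t) ≠ 0 := right_ne_zero_of_mul h1
      exact hne (hmax t' ht' (le_of_low (ptU_zed b c t').1 h2))
  have hta : Le b c t a := le_of_low h.1 hcoeff
  have htne : t ≠ a := by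
    rintro rfl
    exact hcoeff h.2
  refine ⟨ht.2.trans hta, ?_⟩
  rintro rfl
  exact htne (Le.eq_of_sum hta ht.2.sum_le)

theorem sLow_zed {a a' : ℤ × ℤ} (h : Le b c a' a) (hne : a' ≠ a) : SLow b c a (zed b c a') := by
  refine ⟨Low.mono_le h (ptU_zed b c a').1, ?_⟩
  by_contra h1
  have h2 := le_of_low (ptU_zed b c a').1 h1
  exact hne (Le.eq_of_sum h h2.sum_le)

/-- Elements of the cluster algebra supported strictly below `a` are combinations of elements of
`B` supported strictly below `a`. -/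
theorem mem_span_sLow (hB : IsPositiveBasis b c B) {a : ℤ × ℤ} {x : QTorus}
    (hx : x ∈ clusterAlgebra b c) (hs : SLow b c a x) :
    x ∈ Submodule.span Lv {y | y ∈ B ∧ SLow b c a y} := by
  have h1 := clusterAlgebra_le_span b c hx
  have h2 : stdSet (baseX0 b) (mono (1, 0)) (mono (0, 1)) (baseX3 c) = Set.range (zed b c) := by
    ext z
    rw [mem_stdSet_iff]
    constructor
    · rintro ⟨a, rfl⟩; exact ⟨a, rfl⟩
    · rintro ⟨a, rfl⟩; exact ⟨a, rfl⟩
  rw [h2, Finsupp.mem_span_range_iff_exists_finsupp] at h1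
  obtain ⟨F, rfl⟩ := h1
  rw [Finsupp.sum]
  refine Submodule.sum_mem _ fun a' ha' => Submodule.smul_mem _ _ ?_
  obtain ⟨h3, h4⟩ := le_of_expansion hs (Finsupp.mem_support_iff.1 ha')
  have h5 := sLow_zed h3 h4
  obtain ⟨f, hf, hfs⟩ := zed_mem_nc hB a'
  rw [hfs] at h5 ⊢
  rw [Finsupp.sum]
  refine Submodule.sum_mem _ fun y hy => Submodule.smul_mem _ _ (Submodule.subset_span ?_)
  exact ⟨y.2, SLow.of_nc hB hf h5 (Finsupp.mem_support_iff.1 hy)⟩

/-- Uniqueness. -/
theorem unique_low (hB : IsPositiveBasis b c B) {a : ℤ × ℤ} {x y : QTorus} (hx : x ∈ B) (hy : y ∈ B)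
    (hxl : Low b c a x) (hyl : Low b c a y) (hx1 : coeff x (-a) = 1) (hy1 : coeff y (-a) = 1) :
    x = y := by
  by_contra hne
  have hmem : ∀ z ∈ B, z ∈ clusterAlgebra b c := by
    intro z hz
    have : z ∈ Submodule.span Lv B := Submodule.subset_span hz
    rw [hB.span_eq] at this
    exact this
  have hxy : SLow b c a (x - y) := by
    constructor
    · intro s hs
      by_cases h : coeff x s = 0
      · refine hyl s ?_
        intro h'
        apply hs
        rw [QTorus.coeff_sub, h, h', sub_zero]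
      · exact hxl s h
    · rw [QTorus.coeff_sub, hx1, hy1, sub_self]
  have h1 := mem_span_sLow hB ((clusterAlgebra b c).sub_mem (hmem x hx) (hmem y hy)) hxy
  have hx0 : ¬ SLow b c a x := by
    intro h
    have := h.2
    rw [hx1] at this
    exact one_ne_zero this
  have hy0 : ¬ SLow b c a y := by
    intro h
    have := h.2
    rw [hy1] at this
    exact one_ne_zero this
  -- `x` lies in the span of the other elements of `B`
  have h2 : x ∈ Submodule.span Lv (B \ {x}) := by
    have h3 : (x - y) + y ∈ Submodule.span Lv (B \ {x}) := by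
      refine Submodule.add_mem _ ?_
        (Submodule.subset_span ⟨hy, fun h => hne (by simpa [eq_comm] using h)⟩)
      refine Submodule.span_mono ?_ h1
      rintro z ⟨hz, hzs⟩
      refine ⟨hz, ?_⟩
      rintro rfl
      exact hx0 hzs
    simpa using h3
  have h3 := hB.linearIndependent.notMem_span_image (s := {z : B | (z : QTorus) ≠ x}) (x := ⟨x, hx⟩)
    (by simp)
  apply h3
  refine Submodule.span_mono ?_ h2
  rintro z ⟨hz, hzx⟩
  exact ⟨⟨z, hz⟩, by simpa using hzx, rfl⟩

theorem isPointedAt_iff {x : QTorus} {a : ℤ × ℤ} :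
    IsPointedAt b c x a ↔ Low b c a x ∧ coeff x (-a) = 1 := by
  classical
  have hb : (0 : ℤ) < b := by exact_mod_cast b.pos
  have hc : (0 : ℤ) < c := by exact_mod_cast c.pos
  have hinj : ∀ p p' : ℕ × ℕ, ((b : ℤ) * p.1 - a.1, (c : ℤ) * p.2 - a.2) =
      ((b : ℤ) * p'.1 - a.1, (c : ℤ) * p'.2 - a.2) → p = p' := by
    intro p p' h
    have h1 := congrArg Prod.fst h
    have h2 := congrArg Prod.snd h
    simp only at h1 h2
    have h3 : (b : ℤ) * p.1 = b * p'.1 := by linarith
    have h4 : (c : ℤ) * p.2 = c * p'.2 := by linarith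
    have h5 := mul_left_cancel₀ hb.ne' h3
    have h6 := mul_left_cancel₀ hc.ne' h4
    ext
    · exact_mod_cast h5
    · exact_mod_cast h6
  constructor
  · rintro ⟨e, he, rfl⟩
    have hco : ∀ s, coeff (e.sum fun p r => r • mono ((b : ℤ) * p.1 - a.1, (c : ℤ) * p.2 - a.2)) s =
        ∑ p ∈ e.support, if ((b : ℤ) * p.1 - a.1, (c : ℤ) * p.2 - a.2) = s then e p else 0 := by
      intro s
      rw [Finsupp.sum, QTorus.coeff_sum]
      refine Finset.sum_congr rfl fun p _ => ?_
      rw [QTorus.coeff_smul, QTorus.mono, QTorus.coeff_term]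
      split_ifs <;> simp
    constructor
    · intro s hs
      rw [hco] at hs
      obtain ⟨p, hp, h1⟩ := Finset.exists_ne_zero_of_sum_ne_zero hs
      split_ifs at h1 with h2
      · exact ⟨p.1, p.2, h2.symm⟩
      · exact absurd rfl h1
    · rw [hco, Finset.sum_eq_single (0, 0)]
      · rw [if_pos (by ext <;> simp), he]
      · intro p _ hp
        rw [if_neg]
        intro h
        apply hp
        apply hinj
        rw [h]
        ext <;> simp
      · intro h
        rw [Finsupp.notMem_support_iff] at h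
        rw [h, ite_self]
  · rintro ⟨hlow, h1⟩
    let φ : ℕ × ℕ → ℤ × ℤ := fun p => ((b : ℤ) * p.1 - a.1, (c : ℤ) * p.2 - a.2)
    have hφ : Function.Injective φ := fun p p' h => hinj p p' h
    refine ⟨Finsupp.comapDomain φ (QTorus.toFinsupp x) hφ.injOn, ?_, ?_⟩
    · rw [Finsupp.comapDomain_apply]
      have : φ (0, 0) = -a := by ext <;> simp [φ]
      rw [this]
      exact h1
    · have hx := QTorus.eq_sum_term x
      have himg : QTorus.supp x = (Finsupp.comapDomain φ (QTorus.toFinsupp x) hφ.injOn).support.image φ := by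
        ext s
        rw [Finset.mem_image]
        constructor
        · intro hs
          obtain ⟨p, q, h2⟩ := hlow s (QTorus.mem_supp.1 hs)
          refine ⟨(p, q), ?_, h2.symm⟩
          rw [Finsupp.mem_support_iff, Finsupp.comapDomain_apply]
          rw [show φ (p, q) = s from h2.symm]
          exact QTorus.mem_supp.1 hs
        · rintro ⟨p, hp, rfl⟩
          rw [Finsupp.mem_support_iff, Finsupp.comapDomain_apply] at hp
          exact QTorus.mem_supp.2 hp
      conv_lhs => rw [hx, himg]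
      rw [Finset.sum_image (fun p _ p' _ h => hφ h), Finsupp.sum]
      refine Finset.sum_congr rfl fun p _ => ?_
      rw [Finsupp.comapDomain_apply, QTorus.mono, QTorus.smul_term, mul_one]
      rfl

end main

/-- **Strongly positive bases are pointed.** For all `b, c ≥ 1` and every `ℤ[v, v⁻¹]`-basis `B` of the
rank 2 quantum cluster algebra `𝒜_v(b,c)` which consists of bar-invariant elements, contains all
quantum cluster monomials and has structure constants in `ℤ_{≥0}[v, v⁻¹]`, and for every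
`(a₁, a₂) ∈ ℤ²`, exactly one element of `B` is pointed at `(a₁, a₂)`. -/
theorem result (b c : ℕ+) (B : Set QTorus) (hB : IsPositiveBasis b c B) (a : ℤ × ℤ) :
    ∃! x : QTorus, x ∈ B ∧ IsPointedAt b c x a := by
  obtain ⟨x, hx, hxl, hx1⟩ := exists_pointed hB a
  refine ⟨x, ⟨hx, isPointedAt_iff.2 ⟨hxl, hx1⟩⟩, ?_⟩
  rintro y ⟨hy, hyp⟩
  obtain ⟨hyl, hy1⟩ := isPointedAt_iff.1 hyp
  exact unique_low hB hy hx hyl hxl hy1 hx1

end Pool.Agent.Results.MP_573297_al.ExactlyOnePointed
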